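import Mathlib

/-!
# Azumaya algebras over local rings are separable

For an Azumaya algebra `B` over a local ring `R` we construct a separability idempotent and show
that every `B`-module which is projective over `R` is projective over `B`.
-/

namespace PurReg

open IsLocalRing TensorProduct MulOpposite

universe u v w w'

/-- In a nonzero finite free module over a local ring an element outside `m M` has a coordinate
function with value 1. -/
theorem exists_functional_eq_one {R : Type u} {M : Type v} [CommRing R] [IsLocalRing R]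
    [AddCommGroup M] [Module R M] [Module.Finite R M] [Module.Free R M] {x : M}
    (hx : x ∉ maximalIdeal R • (⊤ : Submodule R M)) : ∃ l : M →ₗ[R] R, l x = 1 := by
  let b := Module.Free.chooseBasis R M
  obtain ⟨i, hi⟩ : ∃ i, b.repr x i ∉ maximalIdeal R := by
    by_contra h
    push Not at h
    apply hx
    rw [← b.sum_repr x]
    exact Submodule.sum_mem _ fun i _ => Submodule.smul_mem_smul (h i) Submodule.mem_top
  rw [mem_maximalIdeal, mem_nonunits_iff, not_not] at hi
  obtain ⟨c, hc⟩ := hi
  refine ⟨(c⁻¹ : Rˣ) • b.coord i, ?_⟩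
  rw [LinearMap.smul_apply, Module.Basis.coord_apply, ← hc, Units.smul_def, smul_eq_mul,
    Units.inv_mul]

/-- A separability element for an Azumaya algebra over a local ring. -/
theorem exists_separability {R : Type u} {B : Type v} [CommRing R] [IsLocalRing R] [Ring B]
    [Algebra R B] [hB : IsAzumaya R B] :
    ∃ e : B ⊗[R] Bᵐᵒᵖ, (∀ c : B, (c ⊗ₜ[R] (1 : Bᵐᵒᵖ)) * e = ((1 : B) ⊗ₜ[R] op c) * e) ∧
      AlgHom.mulLeftRight R B e 1 = 1 := by
  have hfree : Module.Free R B := Module.free_of_flat_of_isLocalRing
  have hnon : Nontrivial B := by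
    by_contra h
    rw [not_nontrivial_iff_subsingleton] at h
    have h1 : (0 : R) = 1 := hB.toFaithfulSMul.eq_of_smul_eq_smul fun b => Subsingleton.elim _ _
    exact zero_ne_one h1
  have hone : (1 : B) ∉ maximalIdeal R • (⊤ : Submodule R B) := by
    intro h
    have h1 : (⊤ : Submodule R B) ≤ maximalIdeal R • (⊤ : Submodule R B) := by
      intro b _
      have : ∀ x ∈ maximalIdeal R • (⊤ : Submodule R B),
          x * b ∈ maximalIdeal R • (⊤ : Submodule R B) := by
        intro x hx
        refine Submodule.smul_induction_on hx ?_ ?_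
        · intro r hr y _
          rw [smul_mul_assoc]
          exact Submodule.smul_mem_smul hr Submodule.mem_top
        · intro y z hy hz
          rw [add_mul]
          exact Submodule.add_mem _ hy hz
      simpa using this 1 h
    have h2 := Submodule.eq_bot_of_le_smul_of_le_jacobson_bot (maximalIdeal R)
      (⊤ : Submodule R B) Module.Finite.fg_top h1 (IsLocalRing.maximalIdeal_le_jacobson _)
    have h3 : (1 : B) ∈ (⊥ : Submodule R B) := h2 ▸ Submodule.mem_top
    exact one_ne_zero ((Submodule.mem_bot R).1 h3)
  obtain ⟨l, hl⟩ := exists_functional_eq_one hone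
  obtain ⟨e, he⟩ := hB.bij.2 ((Algebra.linearMap R B) ∘ₗ l)
  have heval : ∀ x, AlgHom.mulLeftRight R B e x = algebraMap R B (l x) := by
    intro x
    rw [he]
    rfl
  refine ⟨e, ?_, ?_⟩
  · intro c
    apply hB.bij.1
    apply LinearMap.ext
    intro x
    rw [map_mul, map_mul, Module.End.mul_apply, Module.End.mul_apply, heval,
      AlgHom.mulLeftRight_apply, AlgHom.mulLeftRight_apply, unop_one, mul_one, unop_op, one_mul]
    exact (Algebra.commutes (l x) c).symm
  · rw [heval, hl, map_one]

section Average

variable {R : Type u} {B : Type v} [CommRing R] [Ring B] [Algebra R B]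
variable {M : Type w} {N : Type w'} [AddCommGroup M] [Module R M] [Module B M] [IsScalarTower R B M]
variable [AddCommGroup N] [Module R N] [Module B N] [IsScalarTower R B N]

/-- `a ⊗ b ↦ a • g (b • m)`. -/
noncomputable def sandwich (g : M →ₗ[R] N) (m : M) : B ⊗[R] Bᵐᵒᵖ →ₗ[R] N :=
  TensorProduct.lift (LinearMap.mk₂ R (fun (a : B) (b : Bᵐᵒᵖ) => a • g (b.unop • m))
    (fun a a' b => add_smul _ _ _)
    (fun r a b => smul_assoc _ _ _)
    (fun a b b' => by rw [unop_add, add_smul, map_add, smul_add])
    (fun r a b => by
      rw [unop_smul, smul_assoc, map_smul]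
      rw [← algebraMap_smul B r, ← algebraMap_smul B r, smul_smul, smul_smul,
        Algebra.commutes]))

theorem sandwich_tmul (g : M →ₗ[R] N) (m : M) (a : B) (b : Bᵐᵒᵖ) :
    sandwich g m (a ⊗ₜ b) = a • g (b.unop • m) := by
  simp [sandwich]

theorem sandwich_add (g : M →ₗ[R] N) (m m' : M) (e : B ⊗[R] Bᵐᵒᵖ) :
    sandwich g (m + m') e = sandwich g m e + sandwich g m' e := by
  induction e with
  | zero => simp
  | tmul a b => rw [sandwich_tmul, sandwich_tmul, sandwich_tmul, smul_add, map_add, smul_add]
  | add x y hx hy => rw [map_add, map_add, map_add, hx, hy]; abel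

theorem sandwich_left (g : M →ₗ[R] N) (m : M) (c : B) (e : B ⊗[R] Bᵐᵒᵖ) :
    sandwich g m ((c ⊗ₜ[R] (1 : Bᵐᵒᵖ)) * e) = c • sandwich g m e := by
  induction e with
  | zero => simp
  | tmul a b =>
    rw [Algebra.TensorProduct.tmul_mul_tmul, sandwich_tmul, sandwich_tmul, one_mul, mul_smul]
  | add x y hx hy => rw [mul_add, map_add, map_add, hx, hy, smul_add]

theorem sandwich_right (g : M →ₗ[R] N) (m : M) (c : B) (e : B ⊗[R] Bᵐᵒᵖ) :
    sandwich g m (((1 : B) ⊗ₜ[R] op c) * e) = sandwich g (c • m) e := by
  induction e with
  | zero => simp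
  | tmul a b =>
    rw [Algebra.TensorProduct.tmul_mul_tmul, sandwich_tmul, sandwich_tmul, one_mul, unop_mul,
      unop_op, mul_smul]
  | add x y hx hy => rw [mul_add, map_add, map_add, hx, hy]

/-- Averaging an `R`-linear map over a separability element gives a `B`-linear map. -/
noncomputable def average (e : B ⊗[R] Bᵐᵒᵖ)
    (he : ∀ c : B, (c ⊗ₜ[R] (1 : Bᵐᵒᵖ)) * e = ((1 : B) ⊗ₜ[R] op c) * e) (g : M →ₗ[R] N) :
    M →ₗ[B] N where
  toFun m := sandwich g m e
  map_add' m m' := sandwich_add g m m' e
  map_smul' c m := by
    rw [RingHom.id_apply, ← sandwich_right, ← he, sandwich_left]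

/-- If `p ∘ g` is the identity for a `B`-linear `p`, then `p` composed with the average is the
identity. -/
theorem average_section (e : B ⊗[R] Bᵐᵒᵖ)
    (he : ∀ c : B, (c ⊗ₜ[R] (1 : Bᵐᵒᵖ)) * e = ((1 : B) ⊗ₜ[R] op c) * e)
    (he1 : AlgHom.mulLeftRight R B e 1 = 1) (g : M →ₗ[R] N) (p : N →ₗ[B] M)
    (hp : ∀ m, p (g m) = m) (m : M) : p (average e he g m) = m := by
  have h : ∀ x : B ⊗[R] Bᵐᵒᵖ, p (sandwich g m x) = (AlgHom.mulLeftRight R B x 1) • m := by
    intro x
    induction x with
    | zero => simp
    | tmul a b =>
      rw [sandwich_tmul, map_smul, hp, AlgHom.mulLeftRight_apply, mul_one, mul_smul]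
    | add x y hx hy => rw [map_add, map_add, hx, hy, map_add, LinearMap.add_apply, add_smul]
  change p (sandwich g m e) = m
  rw [h, he1, one_smul]

end Average

/-- Over an Azumaya algebra over a local ring a module which is projective over the base ring is
projective. -/
theorem projective_of_projective {R : Type u} {B : Type v} [CommRing R] [IsLocalRing R] [Ring B]
    [Algebra R B] [IsAzumaya R B] {M : Type w} [AddCommGroup M] [Module R M] [Module B M]
    [IsScalarTower R B M] [Module.Projective R M] : Module.Projective B M := by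
  obtain ⟨e, he, he1⟩ := exists_separability (R := R) (B := B)
  -- the canonical surjection from a free module
  let p : (M →₀ B) →ₗ[B] M := Finsupp.linearCombination B id
  have hp : Function.Surjective p := Finsupp.linearCombination_id_surjective B M
  obtain ⟨s, hs⟩ := Module.projective_lifting_property (p.restrictScalars R) LinearMap.id hp
  refine Module.Projective.of_split (average e he s) p ?_
  apply LinearMap.ext
  intro m
  exact average_section e he he1 s p (fun m => LinearMap.congr_fun hs m) m

end PurReg
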