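import Mathlib

/-!
# Modules with a finite free resolution

`FP n M`: the module `M` has a resolution of length at most `n` by finite free modules. We show
that this passes to localisations, that it can be lifted from `M / x M` over `R / x`, and the key
lemma: over a Noetherian local ring with a nonzerodivisor `t` and a socle element `y` modulo `t`
every module with a finite free resolution on which `t` is regular is free.
-/

namespace PurReg

open IsLocalRing

universe u

/-- `FP R n M`: the module `M` has a resolution of length at most `n` by finite free modules. -/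
def FP (R : Type u) [CommRing R] : ℕ → (M : Type u) → [AddCommGroup M] → [Module R M] → Prop
  | 0, M, _, _ => Module.Finite R M ∧ Module.Free R M
  | n + 1, M, _, _ => ∃ (k : ℕ) (f : (Fin k → R) →ₗ[R] M), Function.Surjective f ∧
      FP R n (LinearMap.ker f)

theorem FP.finite {R : Type u} [CommRing R] : ∀ {n : ℕ} {M : Type u} [AddCommGroup M]
    [Module R M], FP R n M → Module.Finite R M
  | 0, _, _, _, h => h.1
  | _ + 1, _, _, _, ⟨_, f, hf, _⟩ => Module.Finite.of_surjective f hf

theorem FP.of_equiv {R : Type u} [CommRing R] : ∀ {n : ℕ} {M N : Type u} [AddCommGroup M]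
    [Module R M] [AddCommGroup N] [Module R N], (M ≃ₗ[R] N) → FP R n M → FP R n N
  | 0, _, _, _, _, _, _, e, h => by
    have := h.1
    have := h.2
    exact ⟨Module.Finite.equiv e, Module.Free.of_equiv e⟩
  | n + 1, _, _, _, _, _, _, e, ⟨k, f, hf, hk⟩ => by
    refine ⟨k, e.toLinearMap ∘ₗ f, e.surjective.comp hf, ?_⟩
    have : LinearMap.ker (e.toLinearMap ∘ₗ f) = LinearMap.ker f := by
      rw [LinearMap.ker_comp_of_ker_eq_bot]
      exact e.ker
    rw [this]
    exact hk

/-- Key lemma. -/
theorem FP.free {O : Type u} [CommRing O] [IsLocalRing O] [IsNoetherianRing O] {t y : O}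
    (ht : IsSMulRegular O t) (hy : ¬ t ∣ y) (hmy : ∀ a ∈ maximalIdeal O, t ∣ a * y) :
    ∀ (n : ℕ) (M : Type u) [AddCommGroup M] [Module O M], FP O n M → IsSMulRegular M t →
      Module.Free O M
  | 0, _, _, _, h, _ => h.2
  | n + 1, M, _, _, ⟨k, f, hf, hk⟩, hM => by
    have htF : IsSMulRegular (Fin k → O) t := by
      intro v w hvw
      funext i
      exact ht (congrFun hvw i)
    have htK : IsSMulRegular (LinearMap.ker f) t := by
      intro v w hvw
      apply Subtype.ext
      exact htF (congrArg Subtype.val hvw)
    have hKfree : Module.Free O (LinearMap.ker f) := FP.free ht hy hmy n _ hk htK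
    have hKfin := hk.finite
    have hMfin : Module.Finite O M := Module.Finite.of_surjective f hf
    -- elements of the kernel in `m F` are in `m K`
    have key : ∀ v : LinearMap.ker f, (v : Fin k → O) ∈ maximalIdeal O • (⊤ : Submodule O (Fin k → O))
        → v ∈ maximalIdeal O • (⊤ : Submodule O (LinearMap.ker f)) := by
      intro v hv
      have h1 : ∀ w ∈ maximalIdeal O • (⊤ : Submodule O (Fin k → O)), ∃ z : Fin k → O,
          y • w = t • z := by
        intro w hw
        refine Submodule.smul_induction_on hw ?_ ?_
        · intro a ha w _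
          obtain ⟨c, hc⟩ := hmy a ha
          exact ⟨c • w, by rw [smul_smul, smul_smul, ← hc, mul_comm y a]⟩
        · rintro w₁ w₂ ⟨z₁, hz₁⟩ ⟨z₂, hz₂⟩
          exact ⟨z₁ + z₂, by rw [smul_add, smul_add, hz₁, hz₂]⟩
      obtain ⟨z, hz⟩ := h1 v hv
      have hzK : z ∈ LinearMap.ker f := by
        rw [LinearMap.mem_ker]
        apply hM
        change t • f z = t • (0 : M)
        rw [smul_zero, ← map_smul, ← hz, map_smul, LinearMap.mem_ker.1 v.2, smul_zero]
      have hz' : y • v = t • (⟨z, hzK⟩ : LinearMap.ker f) := Subtype.ext hz
      let b := Module.Free.chooseBasis O (LinearMap.ker f)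
      have hcoord : ∀ i, b.repr v i ∈ maximalIdeal O := by
        intro i
        by_contra hi
        rw [mem_maximalIdeal, mem_nonunits_iff, not_not] at hi
        have h2 := congrArg (fun w => b.repr w i) hz'
        simp only [map_smul, Finsupp.smul_apply, smul_eq_mul] at h2
        obtain ⟨w, hw⟩ := hi
        apply hy
        refine ⟨b.repr ⟨z, hzK⟩ i * (w⁻¹ : Oˣ), ?_⟩
        rw [← mul_assoc, ← h2, ← hw, mul_assoc, Units.mul_inv, mul_one]
      rw [← b.sum_repr v]
      refine Submodule.sum_mem _ fun i _ => ?_
      exact Submodule.smul_mem_smul (hcoord i) Submodule.mem_top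
    have hinj : Function.Injective ((LinearMap.ker f).subtype.lTensor (ResidueField O)) := by
      rw [injective_iff_map_eq_zero]
      intro x hx
      obtain ⟨v, rfl⟩ := TensorProduct.mk_surjective O (LinearMap.ker f) (ResidueField O)
        Ideal.Quotient.mk_surjective x
      have h1 : (v : Fin k → O) ∈ LinearMap.ker
          (TensorProduct.mk O (O ⧸ maximalIdeal O) (Fin k → O) 1) := hx
      rw [LinearMap.ker_tensorProductMk] at h1
      have h2 := key v h1
      rw [← LinearMap.ker_tensorProductMk] at h2
      exact h2
    obtain ⟨l, hl⟩ := (IsLocalRing.split_injective_iff_lTensor_residueField_injective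
      (LinearMap.ker f).subtype).2 hinj
    have hker : LinearMap.ker f ≤ LinearMap.ker (LinearMap.id - (LinearMap.ker f).subtype ∘ₗ l) := by
      intro v hv
      have h1 := LinearMap.congr_fun hl ⟨v, hv⟩
      simp only [LinearMap.comp_apply, LinearMap.id_apply, Submodule.subtype_apply] at h1
      rw [LinearMap.mem_ker, LinearMap.sub_apply, LinearMap.id_apply, LinearMap.comp_apply, h1,
        Submodule.subtype_apply, sub_self]
    let e := f.quotKerEquivOfSurjective hf
    let s : M →ₗ[O] (Fin k → O) := (Submodule.liftQ _ _ hker) ∘ₗ e.symm.toLinearMap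
    have hs : f ∘ₗ s = LinearMap.id := by
      apply LinearMap.ext
      intro x
      obtain ⟨v, rfl⟩ := hf x
      have h1 : e.symm (f v) = Submodule.Quotient.mk v := by
        rw [LinearEquiv.symm_apply_eq]
        rfl
      simp only [s, LinearMap.comp_apply, LinearEquiv.coe_coe, h1, LinearMap.id_apply]
      rw [Submodule.liftQ_apply, LinearMap.sub_apply, LinearMap.id_apply, map_sub,
        LinearMap.comp_apply, Submodule.subtype_apply, LinearMap.mem_ker.1 (l v).2, sub_zero]
    have : Module.Projective O M := Module.Projective.of_split s f hs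
    exact Module.free_of_flat_of_isLocalRing

end PurReg
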