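import Pool.Agent.PurReg.Transfer

/-!
# Regular local rings: domains, finite free resolutions
-/

namespace PurReg

open IsLocalRing

universe u

/-- A local Noetherian ring whose maximal ideal is generated by `d` elements and whose dimension
is at least `d` is a domain, and all finite modules have finite free resolutions. -/
theorem regular_aux (d : ℕ) : ∀ (R : Type u) [CommRing R] [IsLocalRing R] [IsNoetherianRing R],
    (∃ s : Fin d → R, maximalIdeal R = Ideal.span (Set.range s)) → (d : WithBot ℕ∞) ≤ ringKrullDim R →
    IsDomain R ∧ ∀ (M : Type u) [AddCommGroup M] [Module R M] [Module.Finite R M], ∃ n, FP R n M := by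
  induction d with
  | zero =>
    intro R _ _ _ ⟨s, hs⟩ _
    have hm : maximalIdeal R = ⊥ := by
      rw [hs, Set.range_eq_empty, Ideal.span_empty]
    have hF : IsField R := IsLocalRing.isField_iff_maximalIdeal_eq.2 hm
    refine ⟨hF.isDomain, ?_⟩
    intro M _ _ hM
    let _ := hF.toField
    exact ⟨0, hM, Module.Free.of_divisionRing R M⟩
  | succ d ih =>
    intro R _ _ _ ⟨s, hs⟩ hd
    have hnf : ¬ IsField R := by
      intro hF
      rw [ringKrullDim_eq_zero_of_isField hF] at hd
      exact absurd hd (by norm_cast)
    have hsq : maximalIdeal R ^ 2 < maximalIdeal R := (maximalIdeal_sq_lt_maximalIdeal R).2 hnf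
    -- an element outside `m ^ 2` and outside all minimal primes
    obtain ⟨x, hxm, hx2, hxp⟩ : ∃ x ∈ maximalIdeal R, x ∉ maximalIdeal R ^ 2 ∧
        ∀ p ∈ minimalPrimes R, x ∉ p := by
      classical
      by_contra hcon
      push Not at hcon
      have hfin : (minimalPrimes R).Finite := minimalPrimes.finite_of_isNoetherianRing R
      have hsub : (maximalIdeal R : Set R) ⊆
          ⋃ i ∈ (↑(insert (maximalIdeal R ^ 2) hfin.toFinset) : Set (Ideal R)), (id i : Ideal R) := by
        intro x hx
        by_cases h2 : x ∈ maximalIdeal R ^ 2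
        · exact Set.mem_biUnion (by simp) h2
        · obtain ⟨p, hp, hxp⟩ := hcon x hx h2
          exact Set.mem_biUnion (by simp [hp]) hxp
      rw [Ideal.subset_union_prime (maximalIdeal R ^ 2) (maximalIdeal R ^ 2)] at hsub
      · obtain ⟨i, hi, hle⟩ := hsub
        rw [Finset.mem_insert, Set.Finite.mem_toFinset] at hi
        rcases hi with rfl | hi
        · exact absurd hle (not_le_of_gt hsq)
        · have hip : i.IsPrime := hi.1.1
          have hieq : i = maximalIdeal R := le_antisymm (le_maximalIdeal hip.ne_top) hle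
          have h0 : (maximalIdeal R).height = 0 := by
            rw [← hieq, Ideal.height_eq_zero_iff]
            exact hi
          have := IsLocalRing.maximalIdeal_height_eq_ringKrullDim (R := R)
          rw [h0] at this
          rw [← this] at hd
          exact absurd hd (by norm_cast)
      · intro i hi h1 _
        rw [Finset.mem_insert, Set.Finite.mem_toFinset] at hi
        rcases hi with rfl | hi
        · exact absurd rfl h1
        · exact hi.1.1
    let I : Ideal R := Ideal.span {x}
    have hI : I ≤ maximalIdeal R := (Ideal.span_singleton_le_iff_mem _).2 hxm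
    have hIne : I ≠ ⊤ := fun h => (maximalIdeal.isMaximal R).ne_top (top_le_iff.1 (h ▸ hI))
    have : Nontrivial (R ⧸ I) := Ideal.Quotient.nontrivial_iff.2 hIne
    have hloc : IsLocalRing (R ⧸ I) :=
      IsLocalRing.of_surjective' (Ideal.Quotient.mk I) Ideal.Quotient.mk_surjective
    have hker : ∀ a, algebraMap R (R ⧸ I) a = 0 ↔ x ∣ a := by
      intro a
      rw [Ideal.Quotient.algebraMap_eq, Ideal.Quotient.eq_zero_iff_mem, Ideal.mem_span_singleton]
    have hmap : maximalIdeal (R ⧸ I) = (maximalIdeal R).map (Ideal.Quotient.mk I) := by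
      apply le_antisymm
      · intro b hb
        obtain ⟨a, rfl⟩ := Ideal.Quotient.mk_surjective b
        refine Ideal.mem_map_of_mem _ ?_
        rw [mem_maximalIdeal, mem_nonunits_iff] at hb ⊢
        exact fun h => hb (h.map _)
      · refine le_maximalIdeal fun h => ?_
        rw [Ideal.eq_top_iff_one, ← map_one (Ideal.Quotient.mk I),
          Ideal.mem_map_iff_of_surjective _ Ideal.Quotient.mk_surjective] at h
        obtain ⟨a, ha, h1⟩ := h
        rw [Ideal.Quotient.mk_eq_mk_iff_sub_mem] at h1
        have h2 := (maximalIdeal R).sub_mem ha (hI h1)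
        rw [sub_sub_cancel] at h2
        exact (mem_nonunits_iff.1 ((mem_maximalIdeal _).1 h2)) isUnit_one
    have hgen : ∃ s' : Fin d → R ⧸ I, maximalIdeal (R ⧸ I) = Ideal.span (Set.range s') := by
      have hx' : x ∈ Ideal.span (Set.range s) := hs ▸ hxm
      obtain ⟨c, hc⟩ := (Ideal.mem_span_range_iff_exists_fun).1 hx'
      obtain ⟨j, hj⟩ : ∃ j, c j ∉ maximalIdeal R := by
        by_contra hcon
        push Not at hcon
        apply hx2
        rw [← hc, pow_two]
        refine Ideal.sum_mem _ fun i _ => Ideal.mul_mem_mul (hcon i) ?_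
        rw [hs]
        exact Ideal.subset_span ⟨i, rfl⟩
      rw [mem_maximalIdeal, mem_nonunits_iff, not_not] at hj
      refine ⟨fun i => Ideal.Quotient.mk I (s (j.succAbove i)), ?_⟩
      rw [hmap, hs, Ideal.map_span]
      apply le_antisymm
      · rw [Ideal.span_le]
        rintro _ ⟨_, ⟨i, rfl⟩, rfl⟩
        rcases Fin.eq_self_or_eq_succAbove j i with rfl | ⟨i', rfl⟩
        · -- the generator which is replaced by `x`
          have h1 : Ideal.Quotient.mk I (c i * s i) =
              - ∑ k, Ideal.Quotient.mk I (c (i.succAbove k)) *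
                Ideal.Quotient.mk I (s (i.succAbove k)) := by
            have h2 : Ideal.Quotient.mk I x = 0 :=
              Ideal.Quotient.eq_zero_iff_mem.2 (Ideal.mem_span_singleton_self x)
            rw [← hc, Fin.sum_univ_succAbove _ i, map_add, map_sum] at h2
            rw [eq_neg_iff_add_eq_zero]
            simpa using h2
          have h3 : IsUnit (Ideal.Quotient.mk I (c i)) := hj.map _
          rw [map_mul] at h1
          change Ideal.Quotient.mk I (s i) ∈ Ideal.span _
          rw [← Ideal.unit_mul_mem_iff_mem _ h3, h1]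
          refine Ideal.neg_mem_iff _ |>.2 (Ideal.sum_mem _ fun k _ => ?_)
          exact Ideal.mul_mem_left _ _ (Ideal.subset_span ⟨k, rfl⟩)
        · exact Ideal.subset_span ⟨i', rfl⟩
      · rw [Ideal.span_le]
        rintro _ ⟨i, rfl⟩
        exact Ideal.subset_span ⟨_, ⟨_, rfl⟩, rfl⟩
    have hdim : (d : WithBot ℕ∞) ≤ ringKrullDim (R ⧸ I) := by
      have h1 := ringKrullDim_le_ringKrullDim_quotient_add_card ({x} : Finset R) (by
        intro a ha
        rw [Finset.coe_singleton, Set.mem_singleton_iff] at ha
        rw [ha, IsLocalRing.ringJacobson_eq_maximalIdeal]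
        exact hxm)
      rw [Finset.coe_singleton, Finset.card_singleton] at h1
      have h2 := hd.trans h1
      rw [Nat.cast_add, Nat.cast_one] at h2
      exact (ENat.WithBot.add_le_add_one_right_iff).1 h2
    obtain ⟨hdom, hFP⟩ := ih (R ⧸ I) hgen hdim
    have hIp : I.IsPrime := (Ideal.Quotient.isDomain_iff_prime I).1 hdom
    have hR : IsDomain R := by
      obtain ⟨p, hp, hpI⟩ := Ideal.exists_minimalPrimes_le (I := (⊥ : Ideal R)) (J := I) bot_le
      have hpp : p.IsPrime := hp.1.1
      have hp0 : p = ⊥ := by
        have h1 : p ≤ maximalIdeal R * p := by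
          intro y hy
          obtain ⟨a, rfl⟩ := Ideal.mem_span_singleton.1 (hpI hy)
          have ha : a ∈ p := (hpp.mem_or_mem hy).resolve_left (hxp p hp)
          exact Ideal.mul_mem_mul hxm ha
        exact Submodule.eq_bot_of_le_smul_of_le_jacobson_bot (maximalIdeal R) p
          (IsNoetherian.noetherian _) h1 (IsLocalRing.maximalIdeal_le_jacobson _)
      rw [hp0] at hpp
      exact IsDomain.of_bot_isPrime R
    refine ⟨hR, ?_⟩
    have hx0 : x ≠ 0 := by
      rintro rfl
      exact hx2 (Ideal.zero_mem _)
    have hxR : IsSMulRegular R x := IsSMulRegular.of_ne_zero hx0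
    intro M _ _ _
    obtain ⟨k, f, hf⟩ := Module.Finite.exists_fin' R M
    have hxK : IsSMulRegular (LinearMap.ker f) x := by
      intro v w hvw
      apply Subtype.ext
      funext i
      exact hxR (congrFun (congrArg Subtype.val hvw) i)
    have hfinQ : Module.Finite (R ⧸ I) (LinearMap.ker f ⧸ (I • (⊤ : Submodule R (LinearMap.ker f)))) :=
      Module.Finite.of_restrictScalars_finite R (R ⧸ I) _
    obtain ⟨n, hn⟩ := hFP (LinearMap.ker f ⧸ (I • (⊤ : Submodule R (LinearMap.ker f))))
    refine ⟨n + 1, k, f, hf, ?_⟩
    refine FP.of_quotient (R' := R ⧸ I) Ideal.Quotient.mk_surjective hxm hker hxR n _ _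
      (Submodule.mkQ _) (Submodule.mkQ_surjective _) ?_ hxK hn
    intro a
    rw [Submodule.mkQ_apply, Submodule.Quotient.mk_eq_zero, Submodule.ideal_span_singleton_smul,
      Submodule.mem_smul_pointwise_iff_exists]
    constructor
    · rintro ⟨b, _, rfl⟩
      exact ⟨b, rfl⟩
    · rintro ⟨b, rfl⟩
      exact ⟨b, Submodule.mem_top, rfl⟩

end PurReg
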