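import Mathlib

/-!
# Modules over simple Artinian rings are determined by their length over a base ring
-/

namespace PurReg

universe u v w w'

/-- Two finite modules over a simple Artinian ring with the same finite length over a base ring
are isomorphic. -/
theorem equiv_of_length {R : Type u} {A : Type v} [CommRing R] [Ring A] [Algebra R A]
    [IsSimpleRing A] [IsArtinianRing A] {M : Type w} {N : Type w'} [AddCommGroup M] [Module R M]
    [Module A M] [IsScalarTower R A M] [Module.Finite A M] [AddCommGroup N] [Module R N]
    [Module A N] [IsScalarTower R A N] [Module.Finite A N]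
    (h : Module.length R M = Module.length R N) (hM : Module.length R M ≠ ⊤) :
    Nonempty (M ≃ₗ[A] N) := by
  rcases subsingleton_or_nontrivial M with hs | hnt
  · have h1 : Module.length R N = 0 := by rw [← h, Module.length_eq_zero]
    have h2 : Subsingleton N := Module.length_eq_zero_iff.1 h1
    exact ⟨{ toFun := 0, map_add' := by simp, map_smul' := by simp, invFun := 0,
             left_inv := fun x => Subsingleton.elim _ _, right_inv := fun x => Subsingleton.elim _ _ }⟩
  rcases subsingleton_or_nontrivial N with hs | hnt'
  · exfalso
    have h1 : Module.length R M = 0 := by rw [h, Module.length_eq_zero]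
    exact not_subsingleton M (Module.length_eq_zero_iff.1 h1)
  obtain ⟨a, _, S, hS, ⟨e⟩⟩ := (IsSimpleRing.isIsotypic A M).linearEquiv_fun
  obtain ⟨b, _, T, hT, ⟨f⟩⟩ := (IsSimpleRing.isIsotypic A N).linearEquiv_fun
  -- the two simple modules are isomorphic
  have hST : Nonempty (S ≃ₗ[A] T) := by
    let i : S →ₗ[A] M × N := (LinearMap.inl A M N) ∘ₗ S.subtype
    let j : T →ₗ[A] M × N := (LinearMap.inr A M N) ∘ₗ T.subtype
    have hi : Function.Injective i := LinearMap.inl_injective.comp S.injective_subtype
    have hj : Function.Injective j := LinearMap.inr_injective.comp T.injective_subtype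
    let ei := LinearEquiv.ofInjective i hi
    let ej := LinearEquiv.ofInjective j hj
    have h1 : IsSimpleModule A (LinearMap.range i) := IsSimpleModule.congr ei.symm
    have h2 : IsSimpleModule A (LinearMap.range j) := IsSimpleModule.congr ej.symm
    obtain ⟨g⟩ := IsSimpleRing.isIsotypic A (M × N) (LinearMap.range j) (LinearMap.range i)
    exact ⟨ei.trans (g.trans ej.symm)⟩
  obtain ⟨g⟩ := hST
  have lenM : Module.length R M = a * Module.length R S := by
    rw [(e.restrictScalars R).length_eq, Module.length_pi, ENat.card_eq_coe_fintype_card,
      Fintype.card_fin]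
  have lenN : Module.length R N = b * Module.length R T := by
    rw [(f.restrictScalars R).length_eq, Module.length_pi, ENat.card_eq_coe_fintype_card,
      Fintype.card_fin]
  have lenST : Module.length R S = Module.length R T := (g.restrictScalars R).length_eq
  have hnS : Nontrivial S := IsSimpleModule.nontrivial A S
  have hpos : Module.length R S ≠ 0 := (Module.length_pos (R := R) (M := S)).ne'
  have htop : Module.length R S ≠ ⊤ := by
    intro htop
    rw [htop] at lenM
    apply hM
    rw [lenM]
    exact ENat.mul_top (by exact_mod_cast NeZero.ne a)
  have hab : a = b := by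
    rw [lenM, lenN, ← lenST] at h
    obtain ⟨s, hs⟩ := ENat.ne_top_iff_exists.1 htop
    rw [← hs] at h hpos
    have h3 : a * s = b * s := by exact_mod_cast h
    exact Nat.eq_of_mul_eq_mul_right (Nat.pos_of_ne_zero (by exact_mod_cast hpos)) h3
  subst hab
  exact ⟨e.trans ((LinearEquiv.piCongrRight fun _ => g).trans f.symm)⟩

end PurReg
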