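import Pool.Agent.PurReg.FinPD

/-!
# Finite free resolutions: localisation, and lifting from a quotient by a regular element
-/

namespace PurReg

open IsLocalRing

universe u

/-- Localisation preserves `FP`. -/
theorem FP.localization {R R' : Type u} [CommRing R] [CommRing R'] [Algebra R R']
    (S : Submonoid R) [IsLocalization S R'] :
    ∀ (n : ℕ) (M M' : Type u) [AddCommGroup M] [Module R M] [AddCommGroup M'] [Module R M']
      [Module R' M'] [IsScalarTower R R' M'] (g : M →ₗ[R] M') [IsLocalizedModule S g],
      FP R n M → FP R' n M'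
  | 0, M, M', _, _, _, _, _, _, g, _, h => by
    have := h.1
    have := h.2
    exact ⟨Module.Finite.of_isLocalizedModule S (Rₚ := R') g,
      Module.free_of_isLocalizedModule (Rₛ := R') S g⟩
  | n + 1, M, M', _, _, _, _, _, _, g, _, ⟨k, f, hf, hk⟩ => by
    let h : (Fin k → R) →ₗ[R] (Fin k → R') := LinearMap.pi fun i =>
      (Algebra.linearMap R R') ∘ₗ LinearMap.proj i
    have hh : IsLocalizedModule S h := IsLocalizedModule.pi S fun _ => Algebra.linearMap R R'
    let f' : (Fin k → R') →ₗ[R'] M' :=
      (IsLocalizedModule.map S h g f).extendScalarsOfIsLocalization S R'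
    have hf' : Function.Surjective f' := by
      have h1 := IsLocalizedModule.map_surjective S h g f hf
      exact h1
    refine ⟨k, f', hf', ?_⟩
    have h1 : Submodule.localized' R' S h (LinearMap.ker f) = LinearMap.ker f' :=
      LinearMap.localized'_ker_eq_ker_localizedMap R' S h g f
    rw [← h1]
    exact FP.localization S n _ _ (Submodule.toLocalized' R' S h (LinearMap.ker f)) hk

/-- Lifting a finite free resolution from the quotient by a regular element: here `R' = R / x`,
`N' = N / x N`. -/
theorem FP.of_quotient {R R' : Type u} [CommRing R] [IsLocalRing R] [IsNoetherianRing R]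
    [CommRing R'] [Algebra R R'] (hsurj : Function.Surjective (algebraMap R R')) {x : R}
    (hxm : x ∈ maximalIdeal R) (hker : ∀ a, algebraMap R R' a = 0 ↔ x ∣ a)
    (hxR : IsSMulRegular R x) :
    ∀ (n : ℕ) (N N' : Type u) [AddCommGroup N] [Module R N] [Module.Finite R N]
      [AddCommGroup N'] [Module R N'] [Module R' N'] [IsScalarTower R R' N'] (p : N →ₗ[R] N'),
      Function.Surjective p → (∀ a, p a = 0 ↔ ∃ b, a = x • b) → IsSMulRegular N x →
      FP R' n N' → FP R n N := by
  -- lifting a surjection from a free module
  have lift : ∀ (N N' : Type u) [AddCommGroup N] [Module R N] [Module.Finite R N]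
      [AddCommGroup N'] [Module R N'] [Module R' N'] [IsScalarTower R R' N'] (p : N →ₗ[R] N'),
      Function.Surjective p → (∀ a, p a = 0 ↔ ∃ b, a = x • b) → IsSMulRegular N x →
      ∀ (k : ℕ) (f' : (Fin k → R') →ₗ[R'] N'), Function.Surjective f' →
      ∃ f : (Fin k → R) →ₗ[R] N, Function.Surjective f ∧
        (∀ v, p (f v) = f' fun i => algebraMap R R' (v i)) := by
    intro N N' _ _ _ _ _ _ _ p hp hpk hN k f' hf'
    choose c hc using fun i : Fin k => hp (f' (Pi.single i 1))
    let f : (Fin k → R) →ₗ[R] N := Fintype.linearCombination R c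
    have hcomm : ∀ v, p (f v) = f' fun i => algebraMap R R' (v i) := by
      intro v
      have h1 : (fun i => algebraMap R R' (v i)) = ∑ i, (v i) • (Pi.single i 1 : Fin k → R') := by
        funext j
        rw [Finset.sum_apply, Finset.sum_eq_single j]
        · simp [Algebra.smul_def]
        · intro b _ hb
          simp [Ne.symm hb]
        · intro h
          exact absurd (Finset.mem_univ j) h
      rw [h1, map_sum, Fintype.linearCombination_apply, map_sum]
      refine Finset.sum_congr rfl fun i _ => ?_
      rw [map_smul, hc, ← algebraMap_smul R' (v i) (Pi.single i 1 : Fin k → R'), map_smul,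
        algebraMap_smul]
    refine ⟨f, ?_, hcomm⟩
    rw [← LinearMap.range_eq_top]
    have h2 : (⊤ : Submodule R N) ≤ LinearMap.range f ⊔ maximalIdeal R • ⊤ := by
      intro a _
      obtain ⟨v', hv'⟩ := hf' (p a)
      choose v hv using fun i => hsurj (v' i)
      have h3 : p (a - f v) = 0 := by
        rw [map_sub, hcomm, ← hv', sub_eq_zero]
        congr 1
        funext i
        exact (hv i).symm
      obtain ⟨b, hb⟩ := (hpk _).1 h3
      rw [show a = f v + x • b from by rw [← hb]; abel]
      exact Submodule.add_mem_sup (LinearMap.mem_range_self f v)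
        (Submodule.smul_mem_smul hxm Submodule.mem_top)
    have h4 := Submodule.le_of_le_smul_of_le_jacobson_bot (I := maximalIdeal R)
      (N := LinearMap.range f) (N' := ⊤) Module.Finite.fg_top
      (IsLocalRing.maximalIdeal_le_jacobson _) h2
    exact top_le_iff.1 h4
  intro n
  induction n with
  | zero =>
    intro N N' _ _ _ _ _ _ _ p hp hpk hN ⟨hfin, hfree⟩
    have hR' : Nontrivial R' := by
      refine ⟨⟨1, 0, ?_⟩⟩
      intro h
      rw [← map_one (algebraMap R R'), hker] at h
      exact (mem_nonunits_iff.1 ((mem_maximalIdeal _).1 hxm)) (isUnit_of_dvd_one h)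
    let b := Module.finBasis R' N'
    obtain ⟨f, hf, hcomm⟩ := lift N N' p hp hpk hN _ b.equivFun.symm.toLinearMap
      b.equivFun.symm.surjective
    have hsub : LinearMap.ker f = ⊥ := by
      have h1 : LinearMap.ker f ≤ maximalIdeal R • LinearMap.ker f := by
        intro v hv
        have h2 := hcomm v
        rw [LinearMap.mem_ker.1 hv, map_zero] at h2
        have h3 : (fun i => algebraMap R R' (v i)) = 0 := by
          apply b.equivFun.symm.injective
          rw [map_zero]
          exact h2.symm
        choose w hw using fun i => (hker (v i)).1 (congrFun h3 i)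
        have h4 : v = x • w := funext hw
        have h5 : w ∈ LinearMap.ker f := by
          rw [LinearMap.mem_ker]
          apply hN
          change x • f w = x • (0 : N)
          rw [smul_zero, ← map_smul, ← h4, LinearMap.mem_ker.1 hv]
        rw [h4]
        exact Submodule.smul_mem_smul hxm h5
      exact Submodule.eq_bot_of_le_smul_of_le_jacobson_bot _ _ (IsNoetherian.noetherian _) h1
        (IsLocalRing.maximalIdeal_le_jacobson _)
    have e : (Fin _ → R) ≃ₗ[R] N := LinearEquiv.ofBijective f ⟨LinearMap.ker_eq_bot.1 hsub, hf⟩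
    exact ⟨inferInstance, Module.Free.of_equiv e⟩
  | succ n ih =>
    intro N N' _ _ _ _ _ _ _ p hp hpk hN ⟨k, f', hf', hk⟩
    obtain ⟨f, hf, hcomm⟩ := lift N N' p hp hpk hN k f' hf'
    refine ⟨k, f, hf, ?_⟩
    let q : (Fin k → R) →ₗ[R] (Fin k → R') := LinearMap.pi fun i =>
      (Algebra.linearMap R R') ∘ₗ LinearMap.proj i
    have hq : ∀ v, q v = fun i => algebraMap R R' (v i) := fun v => rfl
    let p' : LinearMap.ker f →ₗ[R] LinearMap.ker f' :=
      { toFun := fun v => ⟨q v, by
          rw [LinearMap.mem_ker, hq, ← hcomm, LinearMap.mem_ker.1 v.2, map_zero]⟩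
        map_add' := fun v w => Subtype.ext (map_add q _ _)
        map_smul' := fun a v => Subtype.ext (map_smul q _ _) }
    refine ih (LinearMap.ker f) (LinearMap.ker f') p' ?_ ?_ ?_ hk
    · rintro ⟨v', hv'⟩
      choose v hv using fun i => hsurj (v' i)
      have h1 : p (f v) = 0 := by
        rw [hcomm]
        rw [show (fun i => algebraMap R R' (v i)) = v' from funext hv]
        exact LinearMap.mem_ker.1 hv'
      obtain ⟨b, hb⟩ := (hpk _).1 h1
      obtain ⟨w, rfl⟩ := hf b
      refine ⟨⟨v - x • w, ?_⟩, ?_⟩
      · rw [LinearMap.mem_ker, map_sub, map_smul, hb, sub_self]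
      · apply Subtype.ext
        funext i
        change algebraMap R R' ((v - x • w) i) = v' i
        rw [Pi.sub_apply, Pi.smul_apply, smul_eq_mul, map_sub, map_mul, (hker x).2 dvd_rfl,
          zero_mul, sub_zero, hv]
    · rintro ⟨v, hv⟩
      constructor
      · intro h
        have h3 : (fun i => algebraMap R R' (v i)) = 0 := congrArg Subtype.val h
        choose w hw using fun i => (hker (v i)).1 (congrFun h3 i)
        have h4 : v = x • w := funext hw
        have h5 : w ∈ LinearMap.ker f := by
          rw [LinearMap.mem_ker]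
          apply hN
          change x • f w = x • (0 : N)
          rw [smul_zero, ← map_smul, ← h4, LinearMap.mem_ker.1 hv]
        exact ⟨⟨w, h5⟩, Subtype.ext h4⟩
      · rintro ⟨⟨w, hw⟩, h⟩
        have h4 : v = x • w := congrArg Subtype.val h
        apply Subtype.ext
        funext i
        change algebraMap R R' (v i) = 0
        rw [h4, Pi.smul_apply, smul_eq_mul, map_mul, (hker x).2 dvd_rfl, zero_mul]
    · intro v w hvw
      apply Subtype.ext
      funext i
      exact hxR (congrFun (congrArg Subtype.val hvw) i)

end PurReg
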