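import Pool.Agent.PurReg.Regular

/-!
# Regular local rings are the intersection of their localisations at height one primes

No factoriality or normality of regular local rings is used (they are not in Mathlib).
-/

namespace PurReg

open IsLocalRing

universe u

/-- A regular local ring is a domain and its finite modules have finite free resolutions. -/
theorem isDomain_and_FP (R : Type u) [CommRing R] [IsRegularLocalRing R] :
    IsDomain R ∧ ∀ (M : Type u) [AddCommGroup M] [Module R M] [Module.Finite R M],
      ∃ n, FP R n M := by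
  obtain ⟨s, hs1, hs2⟩ := Submodule.FG.exists_span_finset_card_eq_spanFinrank
    (p := maximalIdeal R) (IsNoetherian.noetherian _)
  refine regular_aux (maximalIdeal R).spanFinrank R ?_ ?_
  · let e := s.equivFinOfCardEq hs1
    refine ⟨fun i => (e.symm i : R), ?_⟩
    refine hs2.symm.trans ?_
    change Ideal.span (s : Set R) = _
    congr 1
    ext a
    constructor
    · intro ha
      exact ⟨e ⟨a, ha⟩, by simp⟩
    · rintro ⟨i, rfl⟩
      exact (e.symm i).2
  · exact (IsRegularLocalRing.spanFinrank_maximalIdeal (R := R)).le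

/-- Socle elements: `q` is a prime, `b ≠ 0` is in `q`, and `q` is exactly the set of `s` with
`b ∣ s * y`. If the module `q` has a finite free resolution, then the localisation at `q` is a
discrete valuation ring. -/
theorem isDVR_of_socle {R : Type u} [CommRing R] [IsDomain R] [IsNoetherianRing R] (q : Ideal R)
    [hq : q.IsPrime] {n : ℕ} (hFP : FP R n q) {b y : R} (hb0 : b ≠ 0)
    (hy : ∀ s, s ∈ q ↔ b ∣ s * y) : IsDiscreteValuationRing (Localization.AtPrime q) := by
  have hbq : b ∈ q := (hy b).2 ⟨y, rfl⟩
  let O := Localization.AtPrime q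
  have hinj : Function.Injective (algebraMap R O) :=
    IsLocalization.injective O q.primeCompl_le_nonZeroDivisors
  have hb0' : algebraMap R O b ≠ 0 := by
    rw [Ne, map_eq_zero_iff _ hinj]
    exact hb0
  have : IsDomain O := IsLocalization.isDomain_localization q.primeCompl_le_nonZeroDivisors
  have hloc := FP.localization (R' := O) q.primeCompl n q
    (Submodule.localized' O q.primeCompl (Algebra.linearMap R O) q)
    (Submodule.toLocalized' O q.primeCompl (Algebra.linearMap R O) q) hFP
  have hmax : Submodule.localized' O q.primeCompl (Algebra.linearMap R O) q = maximalIdeal O := by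
    rw [Ideal.localized'_eq_map, Localization.AtPrime.map_eq_maximalIdeal]
  rw [hmax] at hloc
  have ht : ∀ (N : Submodule O O), IsSMulRegular N (algebraMap R O b) := by
    intro N v w hvw
    apply Subtype.ext
    exact mul_left_cancel₀ hb0' (congrArg Subtype.val hvw)
  have hfree : Module.Free O (maximalIdeal O) := by
    refine FP.free (t := algebraMap R O b) (y := algebraMap R O y) (IsSMulRegular.of_ne_zero hb0')
      ?_ ?_ n _ hloc (ht _)
    · rintro ⟨z, hz⟩
      obtain ⟨⟨r, s⟩, hrs⟩ := IsLocalization.surj q.primeCompl z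
      have h1 : algebraMap R O (s * y) = algebraMap R O (b * r) := by
        rw [map_mul, map_mul, hz, ← hrs]
        ring
      have h2 := hinj h1
      exact s.2 ((hy s).2 ⟨r, h2⟩)
    · intro a ha
      rw [← Localization.AtPrime.map_eq_maximalIdeal] at ha
      induction ha using Submodule.span_induction with
      | mem a ha =>
        obtain ⟨c, hc, rfl⟩ := ha
        rw [← map_mul]
        exact map_dvd _ ((hy c).1 hc)
      | zero => simp
      | add a c _ _ h1 h2 =>
        rw [add_mul]
        exact dvd_add h1 h2
      | smul a c _ h1 =>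
        rw [smul_eq_mul, mul_assoc]
        exact h1.mul_left a
  have hne : maximalIdeal O ≠ ⊥ := by
    intro h
    have h1 : algebraMap R O b ∈ maximalIdeal O := by
      rw [← Localization.AtPrime.map_eq_maximalIdeal]
      exact Ideal.mem_map_of_mem _ hbq
    rw [h, Ideal.mem_bot] at h1
    exact hb0' h1
  have hprin : (maximalIdeal O).IsPrincipal := by
    have h1 : Module.finrank O (maximalIdeal O) = (maximalIdeal O).spanFinrank := by
      rw [Module.finrank_eq_spanFinrank_of_free, Submodule.spanFinrank_top]
    have h2 : Module.finrank O (maximalIdeal O) ≤ 1 := by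
      have := Submodule.finrank_le (maximalIdeal O : Submodule O O)
      rwa [Module.finrank_self] at this
    have h3 : (maximalIdeal O).spanFinrank ≠ 0 := by
      rw [Ne, Submodule.spanFinrank_eq_zero_iff_eq_bot (IsNoetherian.noetherian _)]
      exact hne
    exact ((Submodule.spanFinrank_eq_one_iff _).1 (by omega)).1
  have hPIR : IsPrincipalIdealRing O :=
    ((tfae_of_isNoetherianRing_of_isLocalRing_of_isDomain O).out 4 0).1 hprin
  exact { __ := hPIR, not_a_field' := hne }

/-- In a domain whose ideals have finite free resolutions divisibility can be tested at the primes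
whose localisation is a discrete valuation ring. -/
theorem dvd_of_forall_dvr {R : Type u} [CommRing R] [IsDomain R] [IsNoetherianRing R]
    (hFP : ∀ I : Ideal R, ∃ n, FP R n I) {a b : R} (hb0 : b ≠ 0)
    (h : ∀ (q : Ideal R) (_ : q.IsPrime), IsDiscreteValuationRing (Localization.AtPrime q) →
      ∃ s, s ∉ q ∧ b ∣ s * a) : b ∣ a := by
  by_contra hab
  have hne : (Ideal.Quotient.mk (Ideal.span {b}) a) ≠ 0 := by
    rw [Ne, Ideal.Quotient.eq_zero_iff_mem, Ideal.mem_span_singleton]
    exact hab
  obtain ⟨q, hq, hle⟩ := exists_le_isAssociatedPrime_of_isNoetherianRing R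
    (Ideal.Quotient.mk (Ideal.span {b}) a) hne
  rw [isAssociatedPrime_iff] at hq
  obtain ⟨hqp, z, hz⟩ := hq
  obtain ⟨y, rfl⟩ := Ideal.Quotient.mk_surjective z
  have hmem : ∀ (s y : R), s ∈ (⊥ : Submodule R (R ⧸ Ideal.span {b})).colon
      {Ideal.Quotient.mk (Ideal.span {b}) y} ↔ b ∣ s * y := by
    intro s y
    rw [Submodule.mem_colon_singleton, Submodule.mem_bot, ← Ideal.mem_span_singleton,
      ← Ideal.Quotient.eq_zero_iff_mem, map_mul]
    rfl
  have hy : ∀ s, s ∈ q ↔ b ∣ s * y := by
    intro s
    rw [hz, hmem]
  obtain ⟨n, hn⟩ := hFP q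
  have hdvr := isDVR_of_socle q hn hb0 hy
  obtain ⟨s, hs, hbs⟩ := h q hqp hdvr
  exact hs (hle ((hmem s a).2 hbs))

/-- A localisation of a Noetherian domain at a height one prime is a discrete valuation ring if
the ideals of the ring have finite free resolutions. -/
theorem isDVR_of_height_one {R : Type u} [CommRing R] [IsDomain R] [IsNoetherianRing R]
    (hFP : ∀ I : Ideal R, ∃ n, FP R n I) (q : Ideal R) [hq : q.IsPrime] (h1 : q.height = 1) :
    IsDiscreteValuationRing (Localization.AtPrime q) := by
  have hne : q ≠ ⊥ := by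
    rintro rfl
    rw [Ideal.height_bot] at h1
    exact zero_ne_one h1
  obtain ⟨b, hb, hb0⟩ := Submodule.exists_mem_ne_zero_of_ne_bot hne
  have hmin : q ∈ (Ideal.span {b}).minimalPrimes := by
    refine ⟨⟨hq, (Ideal.span_singleton_le_iff_mem _).2 hb⟩, ?_⟩
    rintro p ⟨hp, hbp⟩ hpq
    by_contra hqp
    have hlt : p < q := lt_of_le_not_ge hpq hqp
    have hp0 : p ≠ ⊥ := by
      rintro rfl
      exact hb0 ((Ideal.mem_bot).1 (hbp (Ideal.mem_span_singleton_self b)))
    have h2 : p.height < q.height := Ideal.height_strict_mono_of_isPrime_of_isPrime hlt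
    rw [h1, Order.lt_one_iff, Ideal.height_eq_zero_iff] at h2
    apply hp0
    have h3 := h2.2 ⟨Ideal.isPrime_bot, le_rfl⟩ bot_le
    exact le_bot_iff.1 h3
  have hann : (Module.annihilator R (R ⧸ Ideal.span {b})) = Ideal.span {b} :=
    Ideal.annihilator_quotient
  have hass : IsAssociatedPrime q (R ⧸ Ideal.span {b}) :=
    Module.associatedPrimes.minimalPrimes_annihilator_subset_associatedPrimes R _ (by rwa [hann])
  rw [isAssociatedPrime_iff] at hass
  obtain ⟨_, z, hz⟩ := hass
  obtain ⟨y, rfl⟩ := Ideal.Quotient.mk_surjective z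
  have hy : ∀ s, s ∈ q ↔ b ∣ s * y := by
    intro s
    rw [hz, Submodule.mem_colon_singleton, Submodule.mem_bot, ← Ideal.mem_span_singleton,
      ← Ideal.Quotient.eq_zero_iff_mem, map_mul]
    rfl
  obtain ⟨n, hn⟩ := hFP q
  exact isDVR_of_socle q hn hb0 hy

end PurReg
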